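import Pool.Agent.V5helper73.SZ.Stm

set_option autoImplicit false
open Finset

namespace V5helper82.SZ
open V5helper73.SZ

theorem t_ATT : S_ATT := by
  intro C δ hC hδ w d hT m j hj
  obtain ⟨k, hk, hmax⟩ := Finset.exists_max_image (range (m + 1))
    (fun k => d k (j / 2 ^ (m - k)) * (2 : ℝ) ^ (δ * (k : ℝ))) ⟨0, by simp⟩
  have hkm : k ≤ m := by simpa [Nat.lt_succ_iff] using hk
  have hmax' : ∀ l ≤ m, d l (j / 2 ^ (m - l)) ≤ d k (j / 2 ^ (m - k)) * (2 : ℝ) ^ (δ * ((k : ℝ) - l)) := by
    intro l hl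
    have h1 := hmax l (by simpa [Nat.lt_succ_iff] using hl)
    have h2 : (0 : ℝ) < (2 : ℝ) ^ (δ * (l : ℝ)) := Real.rpow_pos_of_pos (by norm_num) _
    have h3 : (2 : ℝ) ^ (δ * ((k : ℝ) - l)) * (2 : ℝ) ^ (δ * (l : ℝ)) = (2 : ℝ) ^ (δ * (k : ℝ)) := by
      rw [← Real.rpow_add (by norm_num)]
      congr 1
      ring
    have h4 : d l (j / 2 ^ (m - l)) * (2 : ℝ) ^ (δ * (l : ℝ)) ≤
        (d k (j / 2 ^ (m - k)) * (2 : ℝ) ^ (δ * ((k : ℝ) - l))) * (2 : ℝ) ^ (δ * (l : ℝ)) := by
      rw [mul_assoc, h3]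
      exact h1
    exact le_of_mul_le_mul_right h4 h2
  set x : ℝ := (2 : ℝ) ^ (-δ) with hx
  have hx0 : 0 < x := Real.rpow_pos_of_pos (by norm_num) _
  have hx1 : x < 1 := Real.rpow_lt_one_of_one_lt_of_neg (by norm_num) (by linarith)
  have hD : 0 < d k (j / 2 ^ (m - k)) := hT.pos _ _
  refine ⟨k, hkm, ?_, ?_⟩
  · intro l hl
    have h1 : j / 2 ^ (m - k) / 2 ^ (k - l) = j / 2 ^ (m - l) := by
      rw [Nat.div_div_eq_div_mul, ← pow_add]
      congr 2
      omega
    rw [h1]
    exact hmax' l (hl.trans hkm)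
  · have key : ∀ n : ℕ, k + n ≤ m → ‖w (k + n) (j / 2 ^ (m - (k + n))) - w k (j / 2 ^ (m - k))‖ ≤
        C * d k (j / 2 ^ (m - k)) * ∑ s ∈ range n, x ^ s := by
      intro n
      induction n with
      | zero => intro _; simp
      | succ n ih =>
        intro hn
        have h1 := ih (by omega)
        have h2 := hT.step (k + n) (j / 2 ^ (m - (k + (n + 1))))
        have h3 : j / 2 ^ (m - (k + (n + 1))) / 2 = j / 2 ^ (m - (k + n)) := by
          rw [Nat.div_div_eq_div_mul, ← pow_succ]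
          congr 2
          omega
        rw [h3] at h2
        have h4 := hmax' (k + n) (by omega)
        have h5 : (2 : ℝ) ^ (δ * ((k : ℝ) - ((k + n : ℕ) : ℝ))) = x ^ n := by
          rw [hx, ← Real.rpow_natCast, ← Real.rpow_mul (by norm_num)]
          congr 1
          push_cast
          ring
        rw [h5] at h4
        rw [sum_range_succ, mul_add]
        calc ‖w (k + (n + 1)) (j / 2 ^ (m - (k + (n + 1)))) - w k (j / 2 ^ (m - k))‖
            = ‖(w (k + n) (j / 2 ^ (m - (k + n))) - w k (j / 2 ^ (m - k))) +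
                (w (k + n + 1) (j / 2 ^ (m - (k + (n + 1)))) - w (k + n) (j / 2 ^ (m - (k + n))))‖ := by
              rw [← add_assoc k n 1]
              congr 1
              ring
          _ ≤ _ := norm_add_le _ _
          _ ≤ C * d k (j / 2 ^ (m - k)) * ∑ s ∈ range n, x ^ s + C * d (k + n) (j / 2 ^ (m - (k + n))) :=
              add_le_add h1 h2
          _ ≤ _ := by
              have h6 := mul_le_mul_of_nonneg_left h4 (by linarith : (0 : ℝ) ≤ C)
              have h7 : C * (d k (j / 2 ^ (m - k)) * x ^ n) = C * d k (j / 2 ^ (m - k)) * x ^ n := by ring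
              rw [h7] at h6
              linarith
    have h1 := key (m - k) (by omega)
    have h2 : k + (m - k) = m := by omega
    rw [h2, Nat.sub_self, pow_zero, Nat.div_one] at h1
    refine h1.trans ?_
    have h3 : ∑ s ∈ range (m - k), x ^ s ≤ 1 / (1 - x) := by
      rw [le_div_iff₀ (by linarith), mul_comm, mul_neg_geom_sum]
      have : 0 ≤ x ^ (m - k) := by positivity
      linarith
    calc C * d k (j / 2 ^ (m - k)) * ∑ s ∈ range (m - k), x ^ s
        ≤ C * d k (j / 2 ^ (m - k)) * (1 / (1 - x)) := by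
          apply mul_le_mul_of_nonneg_left h3
          have : (0 : ℝ) ≤ C := by linarith
          positivity
      _ = C / (1 - x) * d k (j / 2 ^ (m - k)) := by ring

end V5helper82.SZ
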