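import Pool.Agent.V5helper73.SZ.Stm

set_option autoImplicit false
open Finset

namespace V5helper82.SZ
open V5helper73.SZ

section tree

variable {B : ℕ} (P : Finset ℕ) (a : ℕ → ℕ → Fin B) (Mid : Finset (Fin B))

/-- the cell of `j` at level `t` is full -/
def full (t j : ℕ) : Prop := ∀ c : Fin B, ∃ j' ∈ P, (∀ s < t, a j' s = a j s) ∧ a j' t = c

open Classical in
/-- the weight -/
noncomputable def om (τ : ℝ) (t j : ℕ) : ℝ := if a j t ∈ Mid ∧ full P a t j then 1 else 1 + τ

open Classical in
/-- the cell -/
noncomputable def cell (t j : ℕ) : Finset ℕ := P.filter (fun j' => ∀ s < t, a j' s = a j s)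

variable {P a Mid}

theorem full_congr {t j j' : ℕ} (h : ∀ s < t, a j' s = a j s) (hf : full P a t j) : full P a t j' := by
  intro c
  obtain ⟨i, hi, h1, h2⟩ := hf c
  exact ⟨i, hi, fun s hs => (h1 s hs).trans (h s hs).symm, h2⟩

theorem cell_sum {τ N : ℝ} (hτ : 0 < τ) (hB : 2 ≤ B) (hτB : τ * ((B : ℝ) - 1) = 1) (hM : B ≤ 2 * Mid.card)
    (hN : 0 ≤ N) (S : ℕ) (h0 : ∀ j ∈ P, ((cell P a S j).card : ℝ) ≤ N) :
    ∀ (n t : ℕ), t + n = S → ∀ j ∈ P,
      ∑ i ∈ cell P a t j, ∏ s ∈ Ico t S, om P a Mid τ s i ≤ N * ((B : ℝ) * (1 + τ / 2)) ^ n := by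
  classical
  intro n
  induction n with
  | zero =>
    intro t ht j hj
    have : t = S := by omega
    subst this
    simp only [Ico_self, prod_empty, sum_const, nsmul_eq_mul, mul_one, pow_zero]
    exact h0 j hj
  | succ n ih =>
    intro t ht j hj
    set X : ℝ := (B : ℝ) * (1 + τ / 2) with hX
    have hX0 : 0 ≤ X := by positivity
    -- the weight of a child
    let wc : Fin B → ℝ := fun c => if c ∈ Mid ∧ full P a t j then 1 else 1 + τ
    have hsplit : ∑ i ∈ cell P a t j, ∏ s ∈ Ico t S, om P a Mid τ s i
        = ∑ c : Fin B, ∑ i ∈ (cell P a t j).filter (fun i => a i t = c),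
            ∏ s ∈ Ico t S, om P a Mid τ s i := by
      exact (Finset.sum_fiberwise (cell P a t j) (fun i => a i t) _).symm
    have hchild : ∀ c : Fin B, ∑ i ∈ (cell P a t j).filter (fun i => a i t = c),
        ∏ s ∈ Ico t S, om P a Mid τ s i ≤
          (if ((cell P a t j).filter (fun i => a i t = c)).Nonempty then wc c else 0) * (N * X ^ n) := by
      intro c
      split_ifs with hne
      · obtain ⟨i₀, hi₀⟩ := hne
        have hi0 := mem_filter.1 hi₀
        have hi0' := mem_filter.1 hi0.1
        have hcell : (cell P a t j).filter (fun i => a i t = c) = cell P a (t + 1) i₀ := by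
          ext i
          simp only [cell, mem_filter]
          constructor
          · rintro ⟨⟨h1, h2⟩, h3⟩
            refine ⟨h1, fun s hs => ?_⟩
            rcases Nat.lt_succ_iff_lt_or_eq.1 hs with h | h
            · rw [h2 s h, hi0'.2 s h]
            · rw [h, h3, hi0.2]
          · rintro ⟨h1, h2⟩
            refine ⟨⟨h1, fun s hs => ?_⟩, ?_⟩
            · rw [h2 s (Nat.lt_succ_of_lt hs), hi0'.2 s hs]
            · rw [h2 t (Nat.lt_succ_self t), hi0.2]
        have hsum : ∑ i ∈ (cell P a t j).filter (fun i => a i t = c), ∏ s ∈ Ico t S, om P a Mid τ s i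
            = wc c * ∑ i ∈ cell P a (t + 1) i₀, ∏ s ∈ Ico (t + 1) S, om P a Mid τ s i := by
          rw [hcell.symm, mul_sum]
          apply sum_congr rfl
          intro i hi
          have hi1 := mem_filter.1 hi
          have hi2 := mem_filter.1 hi1.1
          rw [Finset.prod_eq_prod_Ico_succ_bot (show t < S by omega)]
          congr 1
          simp only [om, wc, hi1.2]
          have hiff : full P a t i ↔ full P a t j :=
            ⟨fun h => full_congr (fun s hs => (hi2.2 s hs).symm) h, fun h => full_congr hi2.2 h⟩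
          rw [hiff]
        rw [hsum]
        have hw : 0 ≤ wc c := by
          simp only [wc]
          split_ifs <;> linarith
        exact mul_le_mul_of_nonneg_left (ih (t + 1) (by omega) i₀ hi0'.1) hw
      · rw [not_nonempty_iff_eq_empty] at hne
        rw [hne]
        simp
    have hNX : 0 ≤ N * X ^ n := by positivity
    have htot : ∑ c : Fin B, (if ((cell P a t j).filter (fun i => a i t = c)).Nonempty then wc c else 0) ≤ X := by
      by_cases hf : full P a t j
      · calc ∑ c : Fin B, (if ((cell P a t j).filter (fun i => a i t = c)).Nonempty then wc c else 0)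
            ≤ ∑ c : Fin B, wc c := by
              apply sum_le_sum
              intro c _
              split_ifs
              · exact le_rfl
              · simp only [wc]; split_ifs <;> linarith
          _ = ∑ c : Fin B, ((1 + τ) - (if c ∈ Mid then τ else 0)) := by
              apply sum_congr rfl
              intro c _
              simp only [wc, hf, and_true]
              split_ifs <;> ring
          _ = (B : ℝ) * (1 + τ) - Mid.card * τ := by
              rw [sum_sub_distrib, sum_const, card_univ, Fintype.card_fin, nsmul_eq_mul, ← sum_filter]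
              simp
          _ ≤ X := by
              have h2 : (B : ℝ) ≤ 2 * Mid.card := by exact_mod_cast hM
              have h3 := mul_le_mul_of_nonneg_right h2 hτ.le
              rw [hX]
              linarith
      · unfold full at hf
        push Not at hf
        obtain ⟨c₀, hc₀⟩ := hf
        have hemp : ¬ ((cell P a t j).filter (fun i => a i t = c₀)).Nonempty := by
          rintro ⟨i, hi⟩
          have hi1 := mem_filter.1 hi
          have hi2 := mem_filter.1 hi1.1
          exact hc₀ i hi2.1 hi2.2 hi1.2
        calc ∑ c : Fin B, (if ((cell P a t j).filter (fun i => a i t = c)).Nonempty then wc c else 0)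
            ≤ ∑ c : Fin B, ((1 + τ) - (if c = c₀ then (1 + τ) else 0)) := by
              apply sum_le_sum
              intro c _
              by_cases hc : c = c₀
              · subst hc
                rw [if_neg hemp]
                simp
              · rw [if_neg hc, sub_zero]
                split_ifs
                · simp only [wc]; split_ifs <;> linarith
                · linarith
          _ = (B : ℝ) * (1 + τ) - (1 + τ) := by
              rw [sum_sub_distrib, sum_const, card_univ, Fintype.card_fin, nsmul_eq_mul]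
              simp
          _ = (B : ℝ) := by linarith
          _ ≤ X := by
              have : (0 : ℝ) ≤ B := Nat.cast_nonneg B
              rw [hX]
              nlinarith
    calc ∑ i ∈ cell P a t j, ∏ s ∈ Ico t S, om P a Mid τ s i
        ≤ ∑ c : Fin B, (if ((cell P a t j).filter (fun i => a i t = c)).Nonempty then wc c else 0) * (N * X ^ n) := by
          rw [hsplit]
          exact sum_le_sum fun c _ => hchild c
      _ = (∑ c : Fin B, (if ((cell P a t j).filter (fun i => a i t = c)).Nonempty then wc c else 0)) * (N * X ^ n) := by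
          rw [sum_mul]
      _ ≤ X * (N * X ^ n) := mul_le_mul_of_nonneg_right htot hNX
      _ = N * X ^ (n + 1) := by ring

end tree

theorem t_JMA : S_JMA := by
  classical
  intro B hB
  have hB2 : (2 : ℝ) ≤ B := by exact_mod_cast hB
  set τ : ℝ := 1 / ((B : ℝ) - 1) with hτdef
  have hB1 : (0 : ℝ) < (B : ℝ) - 1 := by linarith
  have hτ : 0 < τ := by positivity
  have hτ1 : τ ≤ 1 := by
    rw [hτdef, div_le_one hB1]
    linarith
  have hτB : τ * ((B : ℝ) - 1) = 1 := by
    rw [hτdef]; field_simp
  set ρ : ℝ := (1 + τ) ^ (3 / 4 : ℝ) with hρdef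
  have hρ0 : 0 < ρ := Real.rpow_pos_of_pos (by linarith) _
  have hρ4 : ρ ^ 4 = (1 + τ) ^ 3 := by
    rw [hρdef, ← Real.rpow_natCast, ← Real.rpow_mul (by linarith), ← Real.rpow_natCast]
    norm_num
  have hlt : 1 + τ / 2 < ρ := by
    have h1 : (1 + τ / 2) ^ 4 < ρ ^ 4 := by
      rw [hρ4]
      have h2 : 0 < τ ^ 2 := by positivity
      have h3 : 0 < τ ^ 3 := by positivity
      have h4 : τ ^ 4 ≤ τ ^ 3 := by nlinarith
      nlinarith
    exact lt_of_pow_lt_pow_left₀ 4 hρ0.le h1
  refine ⟨(1 + τ / 2) / ρ, by positivity, (div_lt_one hρ0).2 hlt, ?_⟩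
  intro P a Mid S N hM hN h0 h1
  by_cases hP : P.Nonempty
  swap
  · rw [not_nonempty_iff_eq_empty] at hP
    rw [hP]
    simp only [card_empty, Nat.cast_zero]
    positivity
  obtain ⟨j₀, hj₀⟩ := hP
  have hsum := cell_sum (P := P) (a := a) (Mid := Mid) hτ hB hτB hM hN S
    (fun j hj => by
      have := h0 j hj
      unfold cell
      convert this using 2) S 0 (by omega) j₀ hj₀
  have hcell : cell P a 0 j₀ = P := by
    unfold cell
    apply filter_true_of_mem
    intro i _ s hs
    omega
  rw [hcell] at hsum
  have hlow : ∀ j ∈ P, ρ ^ S ≤ ∏ s ∈ Ico 0 S, om P a Mid τ s j := by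
    intro j hj
    have h2 := h1 j hj
    set Z := (range S).filter (fun t => a j t ∈ Mid ∧
      ∀ c : Fin B, ∃ j' ∈ P, (∀ s < t, a j' s = a j s) ∧ a j' t = c) with hZ
    have hprod : ∏ s ∈ Ico 0 S, om P a Mid τ s j = (1 + τ) ^ (S - Z.card) := by
      have h3 : ∏ s ∈ Ico 0 S, om P a Mid τ s j
          = ∏ s ∈ range S, (if a j s ∈ Mid ∧ full P a s j then (1 : ℝ) else 1 + τ) := by
        rw [range_eq_Ico]
        apply prod_congr rfl
        intro s _
        unfold om
        rfl
      rw [h3, prod_ite]
      simp only [prod_const_one, one_mul, prod_const]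
      congr 1
      have h4 : ((range S).filter (fun s => a j s ∈ Mid ∧ full P a s j)) = Z := by
        rw [hZ]
        apply filter_congr
        intro s _
        rfl
      have h5 := card_filter_add_card_filter_not (s := range S) (fun s => a j s ∈ Mid ∧ full P a s j)
      rw [h4, card_range] at h5
      omega
    rw [hprod]
    have h6 : (ρ ^ S) ^ 4 ≤ ((1 + τ) ^ (S - Z.card)) ^ 4 := by
      rw [← pow_mul, mul_comm S 4, pow_mul, hρ4, ← pow_mul, ← pow_mul]
      apply pow_le_pow_right₀ (by linarith)
      omega
    exact (pow_le_pow_iff_left₀ (by positivity) (by positivity) (by norm_num)).1 h6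
  have hfin : (P.card : ℝ) * ρ ^ S ≤ N * ((B : ℝ) * (1 + τ / 2)) ^ S := by
    calc (P.card : ℝ) * ρ ^ S = ∑ _j ∈ P, ρ ^ S := by rw [sum_const, nsmul_eq_mul]
      _ ≤ ∑ j ∈ P, ∏ s ∈ Ico 0 S, om P a Mid τ s j := sum_le_sum hlow
      _ ≤ _ := hsum
  have h7 : N * ((B : ℝ) * ((1 + τ / 2) / ρ)) ^ S * ρ ^ S = N * ((B : ℝ) * (1 + τ / 2)) ^ S := by
    rw [mul_assoc, ← mul_pow]
    congr 2
    field_simp
  have h8 : 0 < ρ ^ S := by positivity
  rw [← h7] at hfin
  exact le_of_mul_le_mul_right hfin h8

end V5helper82.SZ
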