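import Pool.Agent.V5helper73.SZ.Stm

set_option autoImplicit false
open Complex Metric

namespace V5helper82.SZ
open V5helper73.SZ

theorem norm_pt (k i : ℕ) : ‖pt k i‖ = 1 - (1 / 2 : ℝ) ^ k := by
  have h : (1 / 2 : ℝ) ^ k ≤ 1 := pow_le_one₀ (by norm_num) (by norm_num)
  unfold pt
  rw [norm_mul, Complex.norm_exp_ofReal_mul_I, mul_one, Complex.norm_real, Real.norm_eq_abs, abs_of_nonneg (by linarith)]

theorem norm_bm_comm (a z : ℂ) : ‖bm a z‖ = ‖bm z a‖ := by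
  unfold bm
  rw [norm_div, norm_div, norm_sub_rev]
  congr 1
  rw [← Complex.norm_conj (1 - (starRingEnd ℂ) a * z)]
  congr 1
  simp only [map_sub, map_one, map_mul, Complex.conj_conj]
  ring

theorem t_TREE (hK : S_KT) (hW : S_TWO) (hG : S_GEO) : S_TREE := by
  intro f hf
  obtain ⟨g1, g2, g3, -⟩ := hG
  have hb : ∀ k i, pt k i ∈ ball (0:ℂ) 1 := fun k i => (g1 k i).1
  have h0b : (0:ℂ) ∈ ball (0:ℂ) 1 := by simp
  have hpos : ∀ k i, 0 < dd f (pt k i) := fun k i => (hK f hf.diff hf.inj _ (hb k i)).2.1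
  have hW' := fun (a : ℂ) (ha : a ∈ ball (0:ℂ) 1) (z : ℂ) (hz : z ∈ ball (0:ℂ) 1) => hW f hf.diff hf.inj a ha z hz
  have hpt0 : pt 0 0 = 0 := by simp [pt]
  have hd0 : dd f 0 = 1 := by simp [dd, hf.one]
  refine ⟨hpos, ?_, ?_, ?_, ?_, ?_, ?_, ?_, ?_, ?_⟩
  · intro k i
    have h1 := (hW' _ (hb k (i / 2)) _ (hb (k + 1) i)).2.1
    have h2 := g2 k i
    set ρ := ‖bm (pt k (i / 2)) (pt (k + 1) i)‖
    have hρ : 0 ≤ ρ := norm_nonneg _
    have hp := hpos k (i / 2)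
    show ‖f (pt (k + 1) i) - f (pt k (i / 2))‖ ≤ 2000000 * dd f (pt k (i / 2))
    have hn : 0 ≤ ‖f (pt (k + 1) i) - f (pt k (i / 2))‖ := norm_nonneg _
    have h3 : (1 / 10000 : ℝ) ≤ (1 - ρ) ^ 2 := by nlinarith
    have h4 := mul_le_mul_of_nonneg_left h3 hn
    have h5 : dd f (pt k (i / 2)) * ρ ≤ dd f (pt k (i / 2)) * 1 := mul_le_mul_of_nonneg_left (by linarith) hp.le
    linarith
  · intro k i
    have h1 := (hW' _ (hb k (i / 2)) _ (hb (k + 1) i)).2.2.1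
    have h2 := g2 k i
    set ρ := ‖bm (pt k (i / 2)) (pt (k + 1) i)‖
    show dd f (pt (k + 1) i) ≤ 2000000 * dd f (pt k (i / 2))
    have hn := hpos (k + 1) i
    have h3 : (1 / 1000000 : ℝ) ≤ (1 - ρ) ^ 3 := by
      have h4 : (1 / 100 : ℝ) ^ 3 ≤ (1 - ρ) ^ 3 := pow_le_pow_left₀ (by norm_num) (by linarith) 3
      linarith
    have h4 := mul_le_mul_of_nonneg_left h3 hn.le
    linarith
  · intro k i
    have h1 := (hW' _ (hb (k + 1) i) _ (hb k (i / 2))).2.2.1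
    rw [norm_bm_comm] at h1
    have h2 := g2 k i
    set ρ := ‖bm (pt k (i / 2)) (pt (k + 1) i)‖
    show dd f (pt k (i / 2)) ≤ 2000000 * dd f (pt (k + 1) i)
    have hn := hpos k (i / 2)
    have h3 : (1 / 1000000 : ℝ) ≤ (1 - ρ) ^ 3 := by
      have h4 : (1 / 100 : ℝ) ^ 3 ≤ (1 - ρ) ^ 3 := pow_le_pow_left₀ (by norm_num) (by linarith) 3
      linarith
    have h4 := mul_le_mul_of_nonneg_left h3 hn.le
    linarith
  · intro k i i' hk hi hi' hne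
    have h1 := (hW' _ (hb k i) _ (hb k i')).1
    have h2 := g3 k i i' hk hi hi' hne
    have hp := hpos k i
    show dd f (pt k i) ≤ 2000000 * ‖f (pt k i) - f (pt k i')‖
    rw [norm_sub_rev] at h1
    have h3 := mul_le_mul_of_nonneg_left h2 hp.le
    have hn : 0 ≤ ‖f (pt k i) - f (pt k i')‖ := norm_nonneg _
    linarith
  · show f (pt 0 0) = 0
    rw [hpt0, hf.zero]
  · show dd f (pt 0 0) = 1
    rw [hpt0, hd0]
  · intro k i
    show ‖f (pt k i)‖ ≤ 2000000 * 4 ^ k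
    have h1 := (hW' _ h0b _ (hb k i)).2.1
    have h2 : bm 0 (pt k i) = pt k i := by simp [bm]
    rw [h2, hf.zero, sub_zero, hd0, one_mul, norm_pt, sub_sub_cancel] at h1
    have h3 : (1 / 2 : ℝ) ^ k ≥ 0 := by positivity
    have h4 : ‖f (pt k i)‖ * ((1 / 2 : ℝ) ^ k) ^ 2 ≤ 1 := by linarith
    have h5 : ((1 / 2 : ℝ) ^ k) ^ 2 * 4 ^ k = 1 := by
      rw [← pow_mul, mul_comm k 2, pow_mul, ← mul_pow]
      norm_num
    have h6 : (0 : ℝ) < 4 ^ k := by positivity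
    calc ‖f (pt k i)‖ = (‖f (pt k i)‖ * ((1 / 2 : ℝ) ^ k) ^ 2) * 4 ^ k := by rw [mul_assoc, h5, mul_one]
      _ ≤ 1 * 4 ^ k := mul_le_mul_of_nonneg_right h4 h6.le
      _ ≤ 2000000 * 4 ^ k := by linarith
  · intro k i hk
    show dd f (pt k i) ≤ 2000000 * ‖f (pt k i)‖
    have h1 := (hW' _ (hb k i) _ h0b).1
    have h2 : ‖bm (pt k i) 0‖ = ‖pt k i‖ := by simp [bm]
    rw [h2, hf.zero, zero_sub, norm_neg, norm_pt] at h1
    have h3 : (1 / 2 : ℝ) ^ k ≤ 1 / 2 := by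
      calc (1 / 2 : ℝ) ^ k ≤ (1 / 2 : ℝ) ^ 1 := pow_le_pow_of_le_one (by norm_num) (by norm_num) hk
        _ = 1 / 2 := by norm_num
    have hp := hpos k i
    have h4 := mul_le_mul_of_nonneg_left (show (1 / 2 : ℝ) ≤ 1 - (1 / 2 : ℝ) ^ k by linarith) hp.le
    have hn : 0 ≤ ‖f (pt k i)‖ := norm_nonneg _
    linarith
  · intro k i l j
    show dd f (pt k i) ≤ 2000000 * (‖f (pt k i) - f (pt l j)‖ + dd f (pt l j))
    have h1 := (hW' _ (hb k i) _ (hb l j)).2.2.2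
    rw [norm_sub_rev] at h1
    have hn : 0 ≤ ‖f (pt k i) - f (pt l j)‖ := norm_nonneg _
    have hp := hpos l j
    linarith

end V5helper82.SZ
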